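import Pool.Agent.helper5.IH.Spec2

/-!
Row `ih:TP2` (MP_45d809_mp).
-/

set_option autoImplicit false

namespace Pool.Agent.IH
open Finset CT SYM

/-- the class of a circuit -/
private def TP2_cl {V : Type} {G : SimpleGraph V} {b : ℕ} (c : Sym2 V → Fin b) (τ : G.Dart → G.Dart)
    (h : ∀ d : G.Dart, c (τ d).edge = c d.edge) : Cir (fun d : G.Dart => d.symm) τ → Fin b :=
  Quot.lift (fun d : G.Dart => c d.edge) (by
    rintro d d' (h1 | h1)
    · rw [h1]
      exact congrArg c (SimpleGraph.Dart.edge_symm d).symm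
    · rw [h1, h d])

private theorem TP2_same {V : Type} [Fintype V] {G : SimpleGraph V} {b : ℕ} (c : Sym2 V → Fin b)
    (τ : G.Dart → G.Dart) (h : ∀ d : G.Dart, c (τ d).edge = c d.edge) (hb : nci τ = b)
    (hocc : ∀ i, ∃ u w, G.Adj u w ∧ c s(u, w) = i) {d d' : G.Dart} (hdd : c d.edge = c d'.edge) :
    cir (fun d : G.Dart => d.symm) τ d = cir (fun d : G.Dart => d.symm) τ d' := by
  classical
  have hfin : Finite G.Dart := inferInstance
  have hfinC : Finite (Cir (fun d : G.Dart => d.symm) τ) :=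
    Finite.of_surjective (cir (fun d : G.Dart => d.symm) τ) (fun q => Quot.exists_rep q)
  have hcard : Nat.card (Cir (fun d : G.Dart => d.symm) τ) = b := by
    rw [← hb]
    unfold nci gav nav
    symm
    apply Nat.card_congr
    exact Equiv.subtypeUnivEquiv (fun x d hd => hd.elim)
  have hsurj : Function.Surjective (TP2_cl c τ h) := by
    intro i
    obtain ⟨u, w, huw, hi⟩ := hocc i
    exact ⟨cir (fun d : G.Dart => d.symm) τ ⟨(u, w), huw⟩, hi⟩
  have hinj : Function.Injective (TP2_cl c τ h) := by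
    have hle : Nat.card (Cir (fun d : G.Dart => d.symm) τ) ≤ Nat.card (Fin b) := by
      rw [hcard, Nat.card_fin]
    exact (hsurj.bijective_of_nat_card_le hle).1
  exact hinj hdd

private theorem TP2_inv {V : Type} {G : SimpleGraph V} {τ : G.Dart → G.Dart} {ψ : G.Dart → Bool}
    (h1 : ∀ d, ψ d.symm = ψ d) (h2 : ∀ d, ψ (τ d) = ψ d) {d d' : G.Dart}
    (h : cir (fun d : G.Dart => d.symm) τ d = cir (fun d : G.Dart => d.symm) τ d') : ψ d = ψ d' := by
  have key : ∀ x y : G.Dart, (y = x.symm ∨ y = τ x) → ψ x = ψ y := by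
    rintro x y (hx | hx)
    · rw [hx, h1]
    · rw [hx, h2]
  exact congrArg (Quot.lift ψ key) h

theorem TP2 (hTPQ : TPQ_stmt) (hHAM1 : HAM1_stmt) (hHAM2 : HAM2_stmt) : TP2_stmt := by
  intro V _ _ G b c hFR h7 hv hEP hl
  obtain ⟨m, q, τ, S, N, hEW, hodd, hComp, hbn, hnS, hdis, hSN, hadj, hψ⟩ := hTPQ V G b c hFR h7 hv hEP
  have hcard : Nat.card {v // Shared G c v} = S.card + N.card := by
    rw [← Finset.card_union_of_disjoint hdis, ← Nat.card_eq_finsetCard]
    apply Nat.card_congr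
    apply Equiv.subtypeEquivRight
    intro v
    rw [← hSN v, Finset.mem_union]
  rw [hcard] at hl
  have hb2 : 2 ≤ b := by
    by_contra hb
    have hb1 : b = 1 := by omega
    have hpos : 0 < S.card + N.card := by omega
    have : ∃ v, Shared G c v := by
      by_contra hno
      have h0 : Nat.card {v // Shared G c v} = 0 := by
        have : IsEmpty {v // Shared G c v} := ⟨fun v => hno ⟨v.1, v.2⟩⟩
        exact Nat.card_of_isEmpty
      omega
    obtain ⟨v, w, w', _, _, h3⟩ := this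
    apply h3
    subst hb1
    exact Subsingleton.elim _ _
  have hSne : S.Nonempty := by
    rw [← Finset.card_pos]; omega
  have hne0 : numHam (IG m q) ≠ 0 := by
    intro h0
    rw [h0] at hodd
    exact absurd hodd (by decide)
  have hNS : S.card ≤ N.card := by
    by_contra hlt
    exact hne0 (hHAM1 V (IG m q) S N hSne hdis hadj (Or.inl (by omega)))
  have hN1 : N.card = S.card + 1 := by omega
  have hbb : nci τ = b := by omega
  have hocc := hEP.1
  have hfun : ∀ (ψ : G.Dart → Bool), (∀ d, ψ d.symm = ψ d) → (∀ d, ψ (τ d) = ψ d) → ∀ x y : V, Par G c x y →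
      (∃ d d' : G.Dart, d.fst = x ∧ d'.fst = x ∧ ψ d ≠ ψ d') → ∃ d d' : G.Dart, d.fst = y ∧ d'.fst = y ∧ ψ d ≠ ψ d' := by
    rintro ψ h1 h2 x y ⟨_, _, hP⟩ ⟨d, d', hd, hd', hne⟩
    have step : ∀ d : G.Dart, d.fst = x → ∃ e : G.Dart, e.fst = y ∧ ψ e = ψ d := by
      intro d hd
      have hx : ∃ w, G.Adj x w ∧ c s(x, w) = c d.edge := by
        refine ⟨d.snd, ?_, ?_⟩
        · rw [← hd]; exact d.adj
        · rw [← hd]; rfl
      obtain ⟨w, hw, hcw⟩ := (hP (c d.edge)).mp hx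
      refine ⟨⟨(y, w), hw⟩, rfl, ?_⟩
      apply TP2_inv h1 h2
      exact TP2_same c τ hComp.2 hbb hocc hcw
    obtain ⟨e, he, hee⟩ := step d hd
    obtain ⟨e', he', hee'⟩ := step d' hd'
    exact ⟨e, e', he, he', by rw [hee, hee']; exact hne⟩
  have hParS : ∀ x y : V, Par G c x y → Par G c y x := by
    rintro x y ⟨h1, h2, h3⟩
    exact ⟨h2, h1, fun i => (h3 i).symm⟩
  by_contra hcon
  push Not at hcon
  have heven : Even (numHam (IG m q)) := by
    apply hHAM2 V (IG m q) S N (by omega) hdis hadj hN1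
    intro u u'
    obtain ⟨x, y, hxy, hP, hxu, hxu', hyu, hyu'⟩ := hcon u u'
    have hSNd : ∀ v, v ∈ N → v ∉ S := fun v hv hv' => Finset.disjoint_left.mp hdis hv' hv
    have mix : ∀ x y : V, Par G c x y → x ∈ S → y ∈ N → ∀ z ∈ S, ((IG m q).Adj z y ↔ z = x) := by
      intro x y hP hx hy z hz
      obtain ⟨ψ, p1, p2, p3, p4⟩ := hψ z hz
      rw [← p4 y (hSNd y hy)]
      constructor
      · intro h
        exact ((p3 x hx).mp (hfun ψ p1 p2 y x (hParS _ _ hP) h)).symm
      · intro h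
        exact hfun ψ p1 p2 x y hP ((p3 x hx).mpr h.symm)
    rcases (hSN x).mpr hP.1 with hx | hx <;> rcases (hSN y).mpr hP.2.1 with hy | hy
    · exfalso
      obtain ⟨ψ, p1, p2, p3, _⟩ := hψ x hx
      have := hfun ψ p1 p2 x y hP ((p3 x hx).mpr rfl)
      exact hxy ((p3 y hy).mp this).symm
    · exact ⟨x, y, hxy, hxu, hxu', hyu, hyu', hy, Or.inr ⟨hx, mix x y hP hx hy⟩⟩
    · exact ⟨y, x, hxy.symm, hyu, hyu', hxu, hxu', hx, Or.inr ⟨hy, mix y x (hParS _ _ hP) hy hx⟩⟩
    · refine ⟨x, y, hxy, hxu, hxu', hyu, hyu', hy, Or.inl ⟨hx, ?_⟩⟩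
      intro z hz
      obtain ⟨ψ, p1, p2, _, p4⟩ := hψ z hz
      rw [← p4 x (hSNd x hx), ← p4 y (hSNd y hy)]
      exact ⟨hfun ψ p1 p2 x y hP, hfun ψ p1 p2 y x (hParS _ _ hP)⟩
  exact (Nat.not_even_iff_odd.mpr hodd) heven

end Pool.Agent.IH
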